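import Pool.Agent.Lib.MP_5db8e2_mp.FinalB
import Pool.Agent.Lib.MP_5db8e2_mp.LB.Low
import Pool.Agent.Lib.MP_5db8e2_mp.LB.All

/-!
# The second order of the energy of the dilute three-body Bose gas

`e(ρ) = (1/6) ρ³ b (1 + C ρ + o(ρ))` as `ρ → 0` in the thermodynamic limit.
-/

set_option autoImplicit false

open MeasureTheory Filter Topology

namespace Pool.Agent.Results.MP_5db8e2_mp.SecondOrder

open Pool.Agent.Lib.MP_5db8e2_mp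

/-- **Second order expansion of the ground state energy.** -/
theorem result : ∀ V : R3 → R3 → ℝ, Pot V → ∃ C : ℝ,
    (∀ ε > (0 : ℝ), ∃ ρ₀ > (0 : ℝ), ∀ ρ : ℝ, 0 < ρ → ρ < ρ₀ →
      ∀ (N : ℕ → ℕ) (L : ℕ → ℝ), (∀ k, 0 < L k) → Tendsto N atTop atTop →
        Tendsto (fun k => (N k : ℝ) / L k ^ 3) atTop (𝓝 ρ) →
        ∀ᶠ k in atTop, |gs V (N k) (L k) / L k ^ 3 - 1 / 6 * ρ ^ 3 * bM V * (1 + C * ρ)| ≤
          ε * (bM V * ρ ^ 4)) ∧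
    (0 < bM V → ∀ e : ℝ → ℝ, (∀ᶠ ρ in 𝓝[>] 0, IsTL V ρ (e ρ)) →
      Tendsto (fun ρ => ρ⁻¹ * (6 * e ρ / (ρ ^ 3 * bM V) - 1)) (𝓝[>] 0) (𝓝 C)) := by
  intro V hV
  obtain ⟨φ, hφ⟩ := exists_scat hV
  obtain ⟨C, hC⟩ := prodForm hV hφ (fun hb => lower_of lower_all hV hφ hb)
  exact ⟨C, hC, fun hb e he => quotForm hb hC e he⟩

end Pool.Agent.Results.MP_5db8e2_mp.SecondOrder
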